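import Pool.Agent.H59.L.S8.TH188.QS.Cls
import Pool.Agent.H59.L.S8.TH188.QS.Bases3
import Pool.Agent.H59.L.S8.H176.DT.C13
import Pool.Agent.H59.L.S8.H176.DT.H8

/-!
# Log uniformization: change of the model, composites and towers
-/

set_option autoImplicit false
set_option linter.unusedVariables false
set_option linter.unusedSectionVars false

universe u

namespace Pool.Agent.R187.CT

open IsLocalRing Pool.Agent.W418.LU2 Pool.Agent.TH188.QS Pool.Agent.H176.DT

/-- The `R`-subalgebra generated by `T`. -/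
abbrev rg {R K : Type u} [CommRing R] [Field K] (ρ : R →+* K) (T : Set K) : Subring K :=
  Subring.closure ((ρ.range : Set K) ∪ T)

lemma com_den {K : Type u} [Field K] {A : Subring K} {U : Set K} (hU : U.Finite)
    (h : ∀ u ∈ U, Fr A u) : ∃ b ∈ A, b ≠ 0 ∧ ∀ u ∈ U, b * u ∈ A := by
  induction U, hU using Set.Finite.induction_on with
  | empty => exact ⟨1, A.one_mem, one_ne_zero, fun z hz => hz.elim⟩
  | @insert a Z ha hZ ih =>
    obtain ⟨b, hb, hb0, hbZ⟩ := ih fun u hu => h u (Set.mem_insert_of_mem _ hu)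
    obtain ⟨c, hc, d, hd, hd0, rfl⟩ := h a (Set.mem_insert _ _)
    refine ⟨b * d, A.mul_mem hb hd, mul_ne_zero hb0 hd0, ?_⟩
    rintro u (rfl | hu)
    · have h1 : b * d * (c * d⁻¹) = b * c := by field_simp
      rw [h1]
      exact A.mul_mem hb hc
    · have h1 : b * d * u = d * (b * u) := by ring
      rw [h1]
      exact A.mul_mem hd (hbZ u hu)

lemma fr_mono {K : Type u} [Field K] {A B : Subring K} (h : A ≤ B) {z : K} (hz : Fr A z) :
    Fr B z := by
  obtain ⟨a, ha, b, hb, h1, h2⟩ := hz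
  exact ⟨a, h ha, b, h hb, h1, h2⟩

lemma fr_iff {K : Type u} [Field K] {A : Subring K} {z : K} : Fr A z ↔ z ∈ fr A := by
  constructor
  · rintro ⟨a, ha, b, hb, hb0, rfl⟩
    exact (fr A).mul_mem (le_fr A ha) ((fr A).inv_mem (le_fr A hb))
  · rintro ⟨b, hb, hb0, h⟩
    exact ⟨_, h, b, hb, hb0, (mul_inv_cancel_right₀ hb0 z).symm⟩

/-- The fractions of a ring generated by fractions. -/
lemma fr_closure {R K : Type u} [CommRing R] [Field K] (ρ : R →+* K) {A : Subring K}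
    (hρ : ρ.range ≤ A) {S : Set K} (hS : ∀ s ∈ S, Fr A s) {z : K} (hz : Fr (rg ρ S) z) :
    Fr A z := by
  have h1 : rg ρ S ≤ (fr A).toSubring := by
    rw [Subring.closure_le]
    rintro s (hs | hs)
    · exact le_fr A (hρ hs)
    · exact fr_iff.1 (hS s hs)
  obtain ⟨a, ha, b, hb, hb0, rfl⟩ := hz
  exact fr_iff.2 ((fr A).mul_mem (h1 ha) ((fr A).inv_mem (h1 hb)))

/-- The change of the model. -/
theorem gp_move {K : Type u} [Field K] {V : ValuationSubring K} {A : Subring K} {U : Set K}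
    (hU : U.Finite) (hUA : ∀ u ∈ U, u ∈ V ∧ Fr A u)
    (h : GP V (Subring.closure ((A : Set K) ∪ U))) : GP V A := by
  intro G H hGf hHf hG hH
  obtain ⟨b, hbA, hb0, hb⟩ := com_den hU fun u hu => (hUA u hu).2
  have hAA' : A ≤ Subring.closure ((A : Set K) ∪ U) := fun a ha =>
    Subring.subset_closure (Or.inl ha)
  obtain ⟨ι, _, x, P, g, hreg, ⟨hgA, hg0, T, hTf, hT, hP⟩, hgm, hG', hH'⟩ :=
    h (insert b G) H (hGf.insert b) hHf (by
      rintro z (rfl | hz)
      · exact ⟨hb0, Fr.of_mem (hAA' hbA)⟩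
      · exact ⟨(hG z hz).1, fr_mono hAA' (hG z hz).2⟩)
      fun z hz => ⟨(hH z hz).1, fr_mono hAA' (hH z hz).2⟩
  have key := Pool.Agent.Y67.DT.closure_pow hbA
    (U := U) fun u hu => ⟨1, by rw [pow_one]; exact hb u hu⟩
  obtain ⟨k, hk⟩ := Pool.Agent.Y67.DT.common_pow hbA key
    (Z := {g} ∪ (fun t => t * g) '' T) ((Set.finite_singleton g).union (hTf.image _)) (by
      rintro z (hz | ⟨t, ht, rfl⟩)
      · rw [Set.mem_singleton_iff.1 hz]
        exact hgA
      · exact (hT t ht).2)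
  refine ⟨ι, inferInstance, x, P, b ^ (k + 1) * g, hreg, ⟨?_, mul_ne_zero (pow_ne_zero _ hb0) hg0,
    U ∪ T, hU.union hTf, ?_, ?_⟩, ?_, fun z hz => hG' z (Or.inr hz), hH'⟩
  · have h1 : b ^ (k + 1) * g = b * (b ^ k * g) := by ring
    rw [h1]
    exact A.mul_mem hbA (hk g (Or.inl rfl))
  · rintro t (ht | ht)
    · refine ⟨(hUA t ht).1, ?_⟩
      have h1 : t * (b ^ (k + 1) * g) = (b * t) * (b ^ k * g) := by ring
      rw [h1]
      exact A.mul_mem (hb t ht) (hk g (Or.inl rfl))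
    · refine ⟨(hT t ht).1, ?_⟩
      have h1 : t * (b ^ (k + 1) * g) = b * (b ^ k * (t * g)) := by ring
      rw [h1]
      exact A.mul_mem hbA (hk _ (Or.inr ⟨t, ht, rfl⟩))
  · rw [hP, closure_closure_union, Set.union_assoc]
  · exact PMon.mul hreg.ne (Pool.Agent.TH188.QS.PMon.pow hreg.ne (hG' b (Or.inl rfl)) _) hgm

/-- From stages to models. -/
theorem gp_of_su {K : Type u} [Field K] {V : ValuationSubring K} {A : Subring K} (h : SU V A) :
    GP V A := by
  intro G H hGf hHf hG hH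
  obtain ⟨T, n, x, hst, hm⟩ := h (G ∪ (H \ {0})) (hGf.union (hHf.subset Set.sdiff_subset)) (by
    rintro z (hz | ⟨_, hz⟩)
    · exact (hG z hz).1
    · exact hz)
  obtain ⟨β, hβ, hβm, hβT, -⟩ := hst.den
  have hβ0 : β ≠ 0 := by
    obtain ⟨u, u0, -, -, δ, rfl⟩ := hβm
    exact mul_ne_zero u0 (mo_ne_zero hst.reg.ne δ)
  refine ⟨Fin n, inferInstance, x, PP V A T, β, hst.reg, ⟨hβ, hβ0, T, hst.fin, fun t ht =>
    ⟨hst.reg.PA (le_lo _ _ (Subring.subset_closure (Or.inr ht))), by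
      rw [mul_comm]
      exact hβT t ht⟩, rfl⟩, hβm, fun z hz => (hm z (Or.inl hz)).1, fun z hz => ?_⟩
  by_cases h0 : z = 0
  · rw [h0]
    exact Subring.zero_mem _
  · exact (hm z (Or.inr ⟨hz, h0⟩)).2 (hH z hz).1

theorem gp_of_logUnif {K : Type u} [Field K] {V : ValuationSubring K} {A : Subring K}
    [IsNoetherianRing A] (hM : Mod V A) (h : LogUnif V A) : GP V A :=
  gp_of_su (p_base V A hM h)

/-- Algebras of finite type over base rings are noetherian. -/
theorem noe_rg {R : Type u} [CommRing R] (hR : HJ R) {K : Type u} [Field K] (ρ : R →+* K)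
    {T : Set K} (hT : T.Finite) : IsNoetherianRing (rg ρ T) :=
  (main hR (V := ⊤) ρ hT (B := rg ρ T) (fun _ _ => trivial) le_rfl
    (fun b hb => ⟨b, hb, 1, Subring.one_mem _, one_ne_zero, by
      rw [inv_one]; exact Subring.one_mem _, by rw [inv_one, mul_one]⟩) (Or.inl ⟨0, rfl⟩)).2

/-- `V` is uniformizable on all `R`-algebras of finite type whose fraction fields are large. -/
def Good {R K : Type u} [CommRing R] [Field K] (ρ : R →+* K) (V : ValuationSubring K) : Prop :=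
  ∃ T₀ : Set K, T₀.Finite ∧ ∀ T : Set K, T.Finite → rg ρ T ≤ V.toSubring →
    (∀ t ∈ T₀, Fr (rg ρ T) t) → GP V (rg ρ T)

/-- Discrete and divergent valuations and their composites. -/
theorem good_sd {R : Type u} [CommRing R] (hR : HJ R) {K : Type u} [Field K] (ρ : R →+* K)
    (V : ValuationSubring K) (n : ℕ) (h : SD R n ρ V) : Good ρ V :=
  ⟨∅, Set.finite_empty, fun T hT hTV _ => gp_sd hR n V ρ h T hT hTV⟩

theorem good_dv {R : Type u} [CommRing R] (hR : HJ R) {K : Type u} [Field K] (ρ : R →+* K)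
    (V : ValuationSubring K) (h : IsDiscreteValuationRing V ∨ ∀ T : Set K, T.Finite →
      rg ρ T ≤ V.toSubring → Dv V (qseq V (rg ρ T))) : Good ρ V := by
  refine ⟨∅, Set.finite_empty, fun T hT hTV _ => ?_⟩
  rcases h with h | h
  · exact (gp_div hR ρ hT hTV (dv_of_dvr h fun n => qseq_le hTV n)).1
  · exact (gp_div hR ρ hT hTV (h T hT hTV)).1

theorem good_top {R : Type u} [CommRing R] {K : Type u} [Field K] (ρ : R →+* K) :
    Good ρ (⊤ : ValuationSubring K) :=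
  ⟨∅, Set.finite_empty, fun T hT hTV _ => gp_trivial hTV fun _ _ _ => trivial⟩

/-- Valuations which are log uniformizable on all models. -/
theorem good_given {R : Type u} [CommRing R] (hR : HJ R) {K : Type u} [Field K] (ρ : R →+* K)
    (V : ValuationSubring K) (hK : ∃ S : Set K, S.Finite ∧ ∀ z, Fr (rg ρ S) z)
    (h : ∀ T : Set K, T.Finite → rg ρ T ≤ V.toSubring → (∀ z, Fr (rg ρ T) z) →
      LogUnif V (rg ρ T)) : Good ρ V := by
  obtain ⟨S, hS, hSK⟩ := hK
  refine ⟨S, hS, fun T hT hTV hST => ?_⟩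
  have h1 : ∀ z, Fr (rg ρ T) z := fun z =>
    fr_closure ρ (fun a ha => Subring.subset_closure (Or.inl ha)) hST (hSK z)
  have := noe_rg hR ρ hT
  exact gp_of_logUnif ⟨hTV, h1⟩ (h T hT hTV h1)

/-- Composites. -/
theorem good_comp {R : Type u} [CommRing R] (hR : HJ R) {K : Type u} [Field K] (ρ : R →+* K)
    {V V₁ : ValuationSubring K} {W : ValuationSubring (ResidueField V₁)}
    (hρ : ∀ a, ρ a ∈ V₁.toSubring) (hVW : Cmp V V₁ W) (h₁ : Good ρ V₁)
    (hW : Good ((residue V₁).comp (ρ.codRestrict V₁.toSubring hρ)) W) : Good ρ V := by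
  classical
  obtain ⟨T₁, hT₁f, hT₁⟩ := h₁
  obtain ⟨S₀, hS₀f, hS₀⟩ := hW
  have hVV : V ≤ V₁ := fun z hz => ((hVW z).1 hz).1
  choose lf hlf using fun w : ResidueField V₁ => residue_surjective (R := V₁) w
  let U₀ : Set K := (fun w => (lf w : K)) '' ({s ∈ S₀ | s ∈ W} ∪ (fun s => s⁻¹) '' {s ∈ S₀ | s⁻¹ ∈ W})
  have hU₀f : U₀.Finite :=
    ((hS₀f.subset fun _ h => h.1).union ((hS₀f.subset fun _ h => h.1).image _)).image _
  have hlV : ∀ w ∈ W, (lf w : K) ∈ V := by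
    intro w hw
    refine (hVW _).2 ⟨(lf w).2, ?_⟩
    have h1 : residue V₁ ⟨(lf w : K), (lf w).2⟩ = w := hlf w
    rw [h1]
    exact hw
  have hU₀V : ∀ u ∈ U₀, u ∈ V := by
    rintro _ ⟨w, ⟨_, hw⟩ | ⟨s, ⟨_, hs⟩, rfl⟩, rfl⟩
    · exact hlV w hw
    · exact hlV _ hs
  refine ⟨T₁ ∪ U₀, hT₁f.union hU₀f, fun T hT hTV hTF => ?_⟩
  refine gp_move hU₀f (fun u hu => ⟨hU₀V u hu, hTF u (Or.inr hu)⟩) ?_
  rw [closure_closure_union, Set.union_assoc]
  set A := Subring.closure ((ρ.range : Set K) ∪ (T ∪ U₀)) with hA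
  have hTA : rg ρ T ≤ A := Subring.closure_mono (Set.union_subset_union_right _
    Set.subset_union_left)
  have hAV : A ≤ V.toSubring := by
    rw [hA, Subring.closure_le]
    rintro z (hz | hz | hz)
    · exact hTV (Subring.subset_closure (Or.inl hz))
    · exact hTV (Subring.subset_closure (Or.inr hz))
    · exact hU₀V z hz
  have hAV₁ : A ≤ V₁.toSubring := fun a ha => hVV (hAV ha)
  have hG₁ : GP V₁ A := hT₁ (T ∪ U₀) (hT.union hU₀f) hAV₁ fun t ht =>
    fr_mono hTA (hTF t (Or.inl ht))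
  have hnoe : IsNoetherianRing A := noe_rg hR ρ (hT.union hU₀f)
  refine gp_comp hVW hAV hG₁ fun T' hT' hT'V => ?_
  let ρ' : R →+* ResidueField V₁ := (residue V₁).comp (ρ.codRestrict V₁.toSubring hρ)
  have hρ' : ∀ x, Pr (residue V₁) (ρ x) (ρ' x) := fun x => res_pr (hρ x)
  have hTV₁ : ∀ t ∈ (T ∪ U₀) ∪ T', t ∈ V₁ := by
    rintro t ((ht | ht) | ht)
    · exact hAV₁ (Subring.subset_closure (Or.inr (Or.inl ht)))
    · exact hAV₁ (Subring.subset_closure (Or.inr (Or.inr ht)))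
    · exact hVV (hT'V t ht)
  let T₂ : Set (ResidueField V₁) := {w | ∃ t ∈ (T ∪ U₀) ∪ T', Pr (residue V₁) t w}
  have hT₂f : T₂.Finite := by
    have h1 : T₂ ⊆ (fun t : K => if ht : t ∈ V₁ then residue V₁ ⟨t, ht⟩ else 0) ''
        ((T ∪ U₀) ∪ T') := by
      rintro w ⟨t, ht, htw⟩
      refine ⟨t, ht, ?_⟩
      simp only [dif_pos (hTV₁ t ht)]
      exact (res_pr (hTV₁ t ht)).unique htw
    exact (((hT.union hU₀f).union hT').image _).subset h1
  have him : im (residue V₁) (Subring.closure ((A : Set K) ∪ T')) =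
      Subring.closure ((ρ'.range : Set (ResidueField V₁)) ∪ T₂) := by
    rw [hA, closure_closure_union, Set.union_assoc]
    refine im_closure ?_ ?_
    · rintro u (⟨x, rfl⟩ | hu)
      · exact ⟨ρ' x, Or.inl ⟨x, rfl⟩, hρ' x⟩
      · exact ⟨_, Or.inr ⟨u, hu, res_pr (hTV₁ u hu)⟩, res_pr (hTV₁ u hu)⟩
    · rintro w (⟨x, rfl⟩ | ⟨t, ht, h⟩)
      · exact ⟨ρ x, Or.inl ⟨x, rfl⟩, hρ' x⟩
      · exact ⟨t, Or.inr ht, h⟩
  rw [him]
  refine hS₀ T₂ hT₂f ?_ ?_
  · change Subring.closure ((ρ'.range : Set (ResidueField V₁)) ∪ T₂) ≤ W.toSubring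
    rw [← him]
    rintro w ⟨z, hz, hzw⟩
    have hzV : z ∈ V := cl_le hAV hT'V hz
    obtain ⟨h1, h2⟩ := (hVW z).1 hzV
    rw [hzw.unique (res_pr h1)]
    exact h2
  · have hin : ∀ w : ResidueField V₁, (lf w : K) ∈ U₀ → w ∈ rg ρ' T₂ := by
      intro w hw
      refine Subring.subset_closure (Or.inr ⟨(lf w : K), Or.inl (Or.inr hw), ?_⟩)
      have h1 := res_pr (V₁ := V₁) (lf w).2
      have h2 : residue V₁ ⟨(lf w : K), (lf w).2⟩ = w := hlf w
      rwa [h2] at h1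
    intro s hs
    rcases W.mem_or_inv_mem s with hsW | hsW
    · exact Fr.of_mem (hin s ⟨s, Or.inl ⟨hs, hsW⟩, rfl⟩)
    · by_cases hs0 : s = 0
      · rw [hs0]
        exact Fr.of_mem (Subring.zero_mem _)
      · exact ⟨1, Subring.one_mem _, s⁻¹, hin s⁻¹ ⟨s⁻¹, Or.inr ⟨s, ⟨hs, hsW⟩, rfl⟩, rfl⟩,
          inv_ne_zero hs0, by rw [inv_inv, one_mul]⟩

/-- The existence of models. -/
theorem exists_model {R : Type u} [CommRing R] {K : Type u} [Field K] (ρ : R →+* K)
    (V : ValuationSubring K) (hρ : ∀ a, ρ a ∈ V)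
    (hK : ∃ S : Set K, S.Finite ∧ ∀ z, Fr (rg ρ S) z) :
    ∃ T : Set K, T.Finite ∧ rg ρ T ≤ V.toSubring ∧ ∀ z, Fr (rg ρ T) z := by
  obtain ⟨S, hS, hSK⟩ := hK
  refine ⟨{s ∈ S | s ∈ V} ∪ (fun s => s⁻¹) '' {s ∈ S | s⁻¹ ∈ V},
    (hS.subset fun _ h => h.1).union ((hS.subset fun _ h => h.1).image _), ?_, fun z =>
    fr_closure ρ (fun a ha => Subring.subset_closure (Or.inl ha)) ?_ (hSK z)⟩
  · rw [Subring.closure_le]
    rintro z (⟨a, rfl⟩ | hz | ⟨s, hs, rfl⟩)
    · exact hρ a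
    · exact hz.2
    · exact hs.2
  · intro s hs
    rcases V.mem_or_inv_mem s with hsV | hsV
    · exact Fr.of_mem (Subring.subset_closure (Or.inr (Or.inl ⟨hs, hsV⟩)))
    · by_cases hs0 : s = 0
      · rw [hs0]
        exact Fr.of_mem (Subring.zero_mem _)
      · exact ⟨1, Subring.one_mem _, s⁻¹,
          Subring.subset_closure (Or.inr (Or.inr ⟨s, ⟨hs, hsV⟩, rfl⟩)), inv_ne_zero hs0, by
            rw [inv_inv, one_mul]⟩

/-- Towers. -/
theorem good_tower {R : Type u} [CommRing R] (hR : HJ R) {E K : Type u} [Field E] [Field K]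
    [Algebra E K] (ρ : R →+* E) (V : ValuationSubring K)
    (hρV : ∀ a, algebraMap E K (ρ a) ∈ V)
    (hEf : ∃ S : Set E, S.Finite ∧ ∀ z, Fr (rg ρ S) z)
    (hE : Good ρ (V.comap (algebraMap E K)))
    (hInv : ∀ R' : Subring K, Inv V R' (algebraMap E K).fieldRange.subtype →
      Inv V R' (⊤ : Subfield K).subtype) : Good ((algebraMap E K).comp ρ) V := by
  classical
  obtain ⟨T₁, hT₁f, hT₁⟩ := hE
  obtain ⟨S, hSf, hSV, hSE⟩ := exists_model ρ (V.comap (algebraMap E K)) hρV hEf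
  have hnoe := noe_rg hR ρ hSf
  have hGP := hT₁ S hSf hSV fun t _ => hSE t
  have hLU : LogUnif (V.comap (algebraMap E K)) (rg ρ S) := hGP.logUnif hSV
  have hI := hInv _ (sub_base V (rg ρ S) ⟨hSV, hSE⟩ hLU)
  set R' : Subring K := (rg ρ S).map (algebraMap E K) with hR'
  let ρ₂ : R →+* K := (algebraMap E K).comp ρ
  have hR'c : R' = Subring.closure ((ρ₂.range : Set K) ∪ (algebraMap E K) '' S) := by
    rw [hR', RingHom.map_closure, Set.image_union]
    congr 2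
    ext z
    constructor
    · rintro ⟨_, ⟨a, rfl⟩, rfl⟩
      exact ⟨a, rfl⟩
    · rintro ⟨a, rfl⟩
      exact ⟨_, ⟨a, rfl⟩, rfl⟩
  have hSKf : ((algebraMap E K) '' S).Finite := hSf.image _
  have hSKV : ∀ s ∈ (algebraMap E K) '' S, s ∈ V := by
    rintro _ ⟨s, hs, rfl⟩
    exact hSV (Subring.subset_closure (Or.inr hs))
  have hI1 : Inv V R' (RingHom.id K) := by
    refine Inv.step (F := (⊤ : Subfield K)) (F' := K) (φ := (⊤ : Subfield K).subtype) rfl hI ?_
    intro A hM hSU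
    exact key_triv A hM hSU fun z => ⟨⟨z, trivial⟩, rfl⟩
  obtain ⟨-, U, hU, hM, -⟩ := hI1
  have hpre : (RingHom.id K) ⁻¹' (R' : Set K) = (R' : Set K) := rfl
  rw [hpre] at hM
  have hnR' : IsNoetherianRing R' := by
    rw [hR'c]
    exact noe_rg hR ρ₂ hSKf
  refine ⟨U ∪ (algebraMap E K) '' S, hU.union hSKf, fun T hT hTV hTF => ?_⟩
  have hfrT : ∀ z, Fr (rg ρ₂ T) z := by
    intro z
    have h1 : Fr (rg ρ₂ ((algebraMap E K) '' S ∪ U)) z := by
      have h2 := hM.2 z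
      rw [hR'c, closure_closure_union, Set.union_assoc] at h2
      exact h2
    refine fr_closure ρ₂ (fun a ha => Subring.subset_closure (Or.inl ha)) ?_ h1
    rintro s (hs | hs)
    · exact hTF s (Or.inr hs)
    · exact hTF s (Or.inl hs)
  refine gp_move hSKf (fun u hu => ⟨hSKV u hu, hTF u (Or.inr hu)⟩) ?_
  rw [closure_closure_union, Set.union_assoc, Set.union_comm T, ← Set.union_assoc,
    ← closure_closure_union, ← hR'c]
  have hAV : Subring.closure ((R' : Set K) ∪ T) ≤ V.toSubring := by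
    rw [hR'c, closure_closure_union, Subring.closure_le]
    rintro z ((hz | hz) | hz)
    · exact hTV (Subring.subset_closure (Or.inl hz))
    · exact hSKV z hz
    · exact hTV (Subring.subset_closure (Or.inr hz))
  have hle : rg ρ₂ T ≤ Subring.closure ((R' : Set K) ∪ T) := by
    rw [hR'c, closure_closure_union]
    refine Subring.closure_mono ?_
    rintro z (hz | hz)
    · exact Or.inl (Or.inl hz)
    · exact Or.inr hz
  have hMod : Mod V (Subring.closure ((R' : Set K) ∪ T)) :=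
    ⟨hAV, fun z => fr_mono hle (hfrT z)⟩
  have hnA : IsNoetherianRing (Subring.closure ((R' : Set K) ∪ T)) := by
    rw [hR'c, closure_closure_union, Set.union_assoc]
    exact noe_rg hR ρ₂ (hSKf.union hT)
  exact gp_of_logUnif hMod (sub_fin V R' hI _ T hT rfl hMod)

/-- The conclusion. -/
theorem Good.logUnif {R : Type u} [CommRing R] (hR : HJ R) {K : Type u} [Field K] {ρ : R →+* K}
    {V : ValuationSubring K} (h : Good ρ V) {T : Set K} (hT : T.Finite) {B : Subring K}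
    (hBV : B ≤ V.toSubring) (hAB : rg ρ T ≤ B)
    (hBA : ∀ b ∈ B, ∃ a ∈ rg ρ T, ∃ s ∈ rg ρ T, s ≠ 0 ∧ s⁻¹ ∈ B ∧ b = a * s⁻¹)
    (hBK : ∀ z, Fr B z) : LogUnif V B := by
  obtain ⟨T₀, -, h⟩ := h
  have hBA' : B ≤ lo V.toSubring (rg ρ T) := by
    intro b hb
    obtain ⟨a, ha, s, hs, hs0, hsB, rfl⟩ := hBA b hb
    exact ⟨a, ha, s, hs, hs0, hBV hsB, rfl⟩
  have hfr : ∀ z, Fr (rg ρ T) z := by
    intro z
    obtain ⟨b, hb, c, hc, hc0, rfl⟩ := hBK z
    obtain ⟨a, ha, s, hs, hs0, -, rfl⟩ := hBA b hb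
    obtain ⟨a', ha', s', hs', hs'0, -, rfl⟩ := hBA c hc
    have ha'0 : a' ≠ 0 := left_ne_zero_of_mul hc0
    refine ⟨a * s', Subring.mul_mem _ ha hs', s * a', Subring.mul_mem _ hs ha',
      mul_ne_zero hs0 ha'0, ?_⟩
    field_simp
  have hnB : IsNoetherianRing B :=
    (main hR (V := ⊤) ρ hT (B := B) (fun _ _ => trivial) hAB hBA (Or.inl ⟨0, rfl⟩)).2
  exact ((h T hT (hAB.trans hBV) fun t _ => hfr t).loc (hAB.trans hBV) hAB hBA').logUnif hBV

end Pool.Agent.R187.CT
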